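import Pool.Agent.Helper98_G9.Core
import Pool.Agent.Helper16_GNI.NRB
import Pool.Agent.Helper98_GNI.EVN

/-!
Squad GNI, final assembly: for every number of edges there is a graph of girth at least 9 with all cuts
at most `m / 2 + c * m ^ (14 / 15)`, and one of girth at least 11 with the exponent `18 / 19`.
-/

set_option autoImplicit false

namespace Pool.Agent.G9.H98

open Pool.Agent.G9

/-- Girth 9 and girth 11, all numbers of edges. -/
theorem all : ParStmt := core H16.nrb evn

end Pool.Agent.G9.H98
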