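import Pool.Agent.Helper3_GNI.FLD
import Pool.Agent.Helper4_GNI.CNV
import Pool.Agent.Helper11_GNI.DEL
import Pool.Agent.Helper17_GNI.CUT
import Pool.Agent.Helper19_GNI.NRM
import Pool.Agent.Helper24_GNI.GIR
import Pool.Agent.Helper27_GNI.GAU
import Pool.Agent.Helper34_GNI.CNT
import Pool.Agent.Helper35_GNI.LOW
import Pool.Agent.Helper49_GNI.RND
import Pool.Agent.Helper52_GNI.KER
import Pool.Agent.Helper57_GNI.NRD
import Pool.Agent.Helper60_GNI.ALM
import Pool.Agent.Helper64_GNI.PAR
import Pool.Agent.Helper71_GNI.EMP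
import Pool.Agent.Helper75_GNI.FIN
import Pool.Agent.Helper98_GNI.GRQ

/-!
Squad GNI: everything except the two rows NRB and EVN.
-/

set_option autoImplicit false

namespace Pool.Agent.G9.H98

open Pool.Agent.G9

/-- The composition. -/
theorem core (nrb : NrbStmt) (evn : EvnStmt) : ParStmt :=
  H64.par
    (H98.grq
      (H35.low (H19.nrm (H57.nrd H27.gau (H52.ker (H4.cnv H27.gau))) nrb))
      evn H3.fld
      (H11.del H49.rnd H17.cut Pool.Agent.GNI.H71.emp H34.cnt))
    H60.alm

/-- The passage to `Fin n` and to Mathlib's girth. -/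
theorem fin9 : FinStmt := H75.fin H24.gir

end Pool.Agent.G9.H98
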